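import Pool.Agent.H34.RK.Pert

set_option autoImplicit false

/-! # Project RK, part BAL2: the densities for frontiers near the ideal ones -/

open Finset MeasureTheory

namespace Pool.Agent.H34.RK.B2

open Pool.Agent.H34.RK Pool.Agent.H34.RK.PERT

theorem dens_L1 {g δ : ℝ} {L : ℕ} {φ ψ : ℕ → ℝ} {A B : Finset ℕ} (hL : 100 ≤ L) (hδ : 0 ≤ δ)
    (hA : Sub1 L A) (hB : Sub1 L B)
    (hd : ∀ l, 1 ≤ l → l ≤ L → |φ l - g * l| ≤ δ ∧ |ψ l - (1 - g * l)| ≤ δ) (e : Gd A B) :
    (∫ z in (0 : ℝ)..1, |dens φ ψ A B (roleOf e) z -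
      dens (fun l => g * l) (fun l => 1 - g * l) A B (roleOf e) z|) ≤ 4 * (L * δ) := by
  have h1 : (100 : ℝ) ≤ L := by exact_mod_cast hL
  set φ' : ℕ → ℝ := fun l => g * l with hφ'
  set ψ' : ℕ → ℝ := fun l => 1 - g * l with hψ'
  have hLδ : 0 ≤ (L : ℝ) * δ := by positivity
  have hδL : δ ≤ L * δ := by nlinarith
  have hc : 0 ≤ 2 * (L : ℝ) * δ := by positivity
  have hK : ∀ A B : Finset ℕ, Sub1 L A → Sub1 L B → ∀ x y, 0 ≤ x → x ≤ y → y ≤ 1 →
      |KT φ ψ A B x y - KT φ' ψ' A B x y| ≤ 2 * L * δ := by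
    intro A B hA hB x y hx hxy hy
    refine (kt_diff φ ψ φ' ψ' A B δ hx hxy hy (fun l hl => (hd l (hA l hl).1 (hA l hl).2).1)
      (fun l hl => (hd l (hB l hl).1 (hB l hl).2).2)).trans ?_
    have := sub_card hA hB
    gcongr
  rcases e with b | l | l
  · cases b with
    | false =>
      refine (cont_abs (dens_gd _ _ _ _ _) (dens_gd _ _ _ _ _) (fun z h0 h1 =>
        hXT_diff φ ψ φ' ψ' A B _ hc (hK A B hA hB) h0 h1)).trans ?_
      linarith
    | true =>
      refine (cont_abs (dens_gd _ _ _ _ _) (dens_gd _ _ _ _ _) (fun z h0 h1 =>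
        hYT_diff φ ψ φ' ψ' A B _ hc (hK A B hA hB) h0 h1)).trans ?_
      linarith
  · have hl := hA l.1 l.2
    refine (hZT_diff_int φ ψ φ' ψ' (A.erase l.1) B _ hc (hK _ _ (sub_erase hA l.1) hB)
      (φ l.1) 1 (φ' l.1) 1).trans ?_
    have := (hd l.1 hl.1 hl.2).1
    rw [sub_self, abs_zero]
    linarith
  · have hl := hB l.1 l.2
    refine (hZT_diff_int φ ψ φ' ψ' A (B.erase l.1) _ hc (hK _ _ hA (sub_erase hB l.1))
      0 (ψ l.1) 0 (ψ' l.1)).trans ?_
    have := (hd l.1 hl.1 hl.2).2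
    rw [sub_self, abs_zero]
    linarith

/-- products of a bounded weight and a density are integrable -/
theorem kd_ii {k h : ℝ → ℝ} (hk : Measurable k) (hkb : ∀ z, 0 ≤ z → z ≤ 1 → 0 ≤ k z ∧ k z ≤ 1)
    (hh : Gd1 h) : IntervalIntegrable (fun z => k z * h z) volume 0 1 := by
  rw [intervalIntegrable_iff_integrableOn_Ioc_of_le zero_le_one]
  have h1 : IntegrableOn h (Set.Ioc 0 1) :=
    (intervalIntegrable_iff_integrableOn_Ioc_of_le zero_le_one).1 (hh.li 0 1)
  refine Integrable.mono' h1.norm (hk.aestronglyMeasurable.mul h1.aestronglyMeasurable) ?_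
  refine (ae_restrict_iff' measurableSet_Ioc).2 (Filter.Eventually.of_forall fun z hz => ?_)
  obtain ⟨h2, h3⟩ := hkb z hz.1.le hz.2
  rw [norm_mul, Real.norm_of_nonneg h2]
  exact mul_le_of_le_one_left (norm_nonneg _) h3

theorem wdens {g δ : ℝ} {L : ℕ} {φ ψ : ℕ → ℝ} {A B : Finset ℕ} (hL : 100 ≤ L) (hδ : 0 ≤ δ)
    (hA : Sub1 L A) (hB : Sub1 L B)
    (hd : ∀ l, 1 ≤ l → l ≤ L → |φ l - g * l| ≤ δ ∧ |ψ l - (1 - g * l)| ≤ δ) (e : Gd A B)
    {k : ℝ → ℝ} (hk : Measurable k) (hkb : ∀ z, 0 ≤ z → z ≤ 1 → 0 ≤ k z ∧ k z ≤ 1) :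
    (∫ z in (0 : ℝ)..1, k z * dens φ ψ A B (roleOf e) z) ≤
      (∫ z in (0 : ℝ)..1, k z * dens (fun l => g * l) (fun l => 1 - g * l) A B (roleOf e) z) +
        4 * (L * δ) := by
  have g1 := dens_gd φ ψ A B (roleOf e)
  have g2 := dens_gd (fun l => g * l) (fun l => 1 - g * l) A B (roleOf e)
  have hi := ((g1.li 0 1).sub (g2.li 0 1)).abs
  calc (∫ z in (0 : ℝ)..1, k z * dens φ ψ A B (roleOf e) z)
      ≤ ∫ z in (0 : ℝ)..1, (k z * dens (fun l => g * l) (fun l => 1 - g * l) A B (roleOf e) z +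
        |dens φ ψ A B (roleOf e) z -
          dens (fun l => g * l) (fun l => 1 - g * l) A B (roleOf e) z|) := by
        refine intervalIntegral.integral_mono_on zero_le_one (kd_ii hk hkb g1)
          ((kd_ii hk hkb g2).add hi) fun z hz => ?_
        obtain ⟨h2, h3⟩ := hkb z hz.1 hz.2
        have h4 := le_abs_self (dens φ ψ A B (roleOf e) z -
          dens (fun l => g * l) (fun l => 1 - g * l) A B (roleOf e) z)
        have h5 : k z * (dens φ ψ A B (roleOf e) z -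
            dens (fun l => g * l) (fun l => 1 - g * l) A B (roleOf e) z) ≤
            1 * |dens φ ψ A B (roleOf e) z -
              dens (fun l => g * l) (fun l => 1 - g * l) A B (roleOf e) z| :=
          (mul_le_mul_of_nonneg_left h4 h2).trans
            (mul_le_mul_of_nonneg_right h3 (abs_nonneg _))
        linarith
    _ = (∫ z in (0 : ℝ)..1, k z *
          dens (fun l => g * l) (fun l => 1 - g * l) A B (roleOf e) z) +
        ∫ z in (0 : ℝ)..1, |dens φ ψ A B (roleOf e) z -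
          dens (fun l => g * l) (fun l => 1 - g * l) A B (roleOf e) z| :=
        intervalIntegral.integral_add (kd_ii hk hkb g2) hi
    _ ≤ _ := by
        have := dens_L1 hL hδ hA hB hd e
        linarith

end Pool.Agent.H34.RK.B2
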