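import Pool.Agent.H34.RK.Stm4
import Pool.Agent.H34.RK.Pert

/-!
# RK-BAL2: perturbation of weighted masses
-/

set_option autoImplicit false

open Finset MeasureTheory

namespace Pool.Agent.H34.RK.B2

open PERT

theorem dens_L1 {g δ : ℝ} {L : ℕ} {φ ψ : ℕ → ℝ} {A B : Finset ℕ} (hδ : 0 ≤ δ) (hL : 100 ≤ L)
    (hA : Sub1 L A) (hB : Sub1 L B)
    (hd : ∀ l, 1 ≤ l → l ≤ L → |φ l - g * l| ≤ δ ∧ |ψ l - (1 - g * l)| ≤ δ) (e : Gd A B) :
    (∫ z in (0 : ℝ)..1, |dens φ ψ A B (roleOf e) z -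
      dens (fun l => g * l) (fun l => 1 - g * l) A B (roleOf e) z|) ≤ 4 * (L * δ) := by
  have hL' : (100 : ℝ) ≤ L := by exact_mod_cast hL
  set φ' : ℕ → ℝ := fun l => g * l with hφ'
  set ψ' : ℕ → ℝ := fun l => 1 - g * l with hψ'
  have hLδ : 0 ≤ (L : ℝ) * δ := by positivity
  have hδL : δ ≤ L * δ := by nlinarith
  have hc : 0 ≤ 2 * (L : ℝ) * δ := by positivity
  have hK : ∀ A B : Finset ℕ, Sub1 L A → Sub1 L B → ∀ x y, 0 ≤ x → x ≤ y → y ≤ 1 →
      |KT φ ψ A B x y - KT φ' ψ' A B x y| ≤ 2 * L * δ := by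
    intro A B hA hB x y hx hxy hy
    refine (kt_diff φ ψ φ' ψ' A B δ hx hxy hy (fun l hl => (hd l (hA l hl).1 (hA l hl).2).1)
      (fun l hl => (hd l (hB l hl).1 (hB l hl).2).2)).trans ?_
    have := sub_card hA hB
    gcongr
  rcases e with b | l | l
  · cases b with
    | false =>
      refine (cont_abs (dens_gd _ _ _ _ _) (dens_gd _ _ _ _ _) (fun z h0 h1 =>
        hXT_diff φ ψ φ' ψ' A B _ hc (hK A B hA hB) h0 h1)).trans ?_
      linarith
    | true =>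
      refine (cont_abs (dens_gd _ _ _ _ _) (dens_gd _ _ _ _ _) (fun z h0 h1 =>
        hYT_diff φ ψ φ' ψ' A B _ hc (hK A B hA hB) h0 h1)).trans ?_
      linarith
  · have hl := hA l.1 l.2
    refine (hZT_diff_int φ ψ φ' ψ' (A.erase l.1) B _ hc (hK _ _ (sub_erase hA l.1) hB)
      (φ l.1) 1 (φ' l.1) 1).trans ?_
    have := (hd l.1 hl.1 hl.2).1
    rw [sub_self, abs_zero]
    linarith
  · have hl := hB l.1 l.2
    refine (hZT_diff_int φ ψ φ' ψ' A (B.erase l.1) _ hc (hK _ _ hA (sub_erase hB l.1))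
      0 (ψ l.1) 0 (ψ' l.1)).trans ?_
    have := (hd l.1 hl.1 hl.2).2
    rw [sub_self, abs_zero]
    linarith

theorem mul_ii {k h : ℝ → ℝ} (hk : Measurable k) (hk1 : ∀ z, |k z| ≤ 1) (hh : Gd1 h) :
    IntervalIntegrable (fun z => k z * h z) volume 0 1 := by
  have h1 := (hh.li 0 1).1
  refine ⟨?_, by simp⟩
  exact h1.bdd_mul hk.aestronglyMeasurable (c := 1) (Filter.Eventually.of_forall fun z => by
    rw [Real.norm_eq_abs]; exact hk1 z)

/-- weighted masses -/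
theorem wdens {g δ : ℝ} {L : ℕ} {φ ψ : ℕ → ℝ} {A B : Finset ℕ} (hδ : 0 ≤ δ) (hL : 100 ≤ L)
    (hA : Sub1 L A) (hB : Sub1 L B)
    (hd : ∀ l, 1 ≤ l → l ≤ L → |φ l - g * l| ≤ δ ∧ |ψ l - (1 - g * l)| ≤ δ) (e : Gd A B)
    {k : ℝ → ℝ} (hk : Measurable k) (hk1 : ∀ z, 0 ≤ k z ∧ k z ≤ 1) :
    (∫ z in (0 : ℝ)..1, k z * dens φ ψ A B (roleOf e) z) ≤
      (∫ z in (0 : ℝ)..1, k z * dens (fun l => g * l) (fun l => 1 - g * l) A B (roleOf e) z) +
        4 * (L * δ) := by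
  have hka : ∀ z, |k z| ≤ 1 := fun z => by rw [abs_of_nonneg (hk1 z).1]; exact (hk1 z).2
  have g1 := dens_gd φ ψ A B (roleOf e)
  have g2 := dens_gd (fun l => g * l) (fun l => 1 - g * l) A B (roleOf e)
  have i1 := mul_ii hk hka g1
  have i2 := mul_ii hk hka g2
  have h1 := dens_L1 hδ hL hA hB hd e
  have h2 : (∫ z in (0 : ℝ)..1, (k z * dens φ ψ A B (roleOf e) z -
      k z * dens (fun l => g * l) (fun l => 1 - g * l) A B (roleOf e) z)) ≤
      ∫ z in (0 : ℝ)..1, |dens φ ψ A B (roleOf e) z -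
        dens (fun l => g * l) (fun l => 1 - g * l) A B (roleOf e) z| := by
    refine intervalIntegral.integral_mono_on zero_le_one (i1.sub i2)
      ((g1.li 0 1).sub (g2.li 0 1)).abs fun z _ => ?_
    rw [← mul_sub]
    refine (le_abs_self _).trans ?_
    rw [abs_mul]
    exact mul_le_of_le_one_left (abs_nonneg _) (hka z)
  rw [intervalIntegral.integral_sub i1 i2] at h2
  linarith

end Pool.Agent.H34.RK.B2
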