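import Pool.Agent.H34.RK.B2.Tr

/-!
# RK-BAL2: bounds of the kernels on the good set, numbers
-/

set_option autoImplicit false

open Finset MeasureTheory

namespace Pool.Agent.H34.RK.B2

open BALF

theorem phi_lt_one {L : ℕ} {θ : Fr L} (h : θ ∈ OmS L) (l : ℕ) : phi θ l < 1 := by
  unfold phi
  split_ifs with h1
  · exact (h.1 _).2
  · exact zero_lt_one

theorem m_k1 {X : Type} [MeasurableSpace X] {a z : X → ℝ} (ha : Measurable a) (hz : Measurable z) :
    Measurable fun x => k1 (a x) (z x) := by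
  unfold k1
  exact (((measurable_const.sub hz).div (measurable_const.sub ha)).pow_const _).min measurable_const

theorem m_k3 {X : Type} [MeasurableSpace X] {a z : X → ℝ} (ha : Measurable a) (hz : Measurable z) :
    Measurable fun x => k3 (a x) (z x) := by
  unfold k3
  exact (((hz.sub ha).max measurable_const).div (measurable_const.sub ha)).pow_const _

theorem k1_low {a z : ℝ} (ha0 : 0 ≤ a) (ha : a < 1) (hz0 : 0 ≤ z) (hz : z ≤ 1 / 50) :
    1 - k1 a z ≤ 1 / 10 := by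
  have h1 : 0 < 1 - a := by linarith
  have h2 : (1 - z) ≤ (1 - z) / (1 - a) := by
    rw [le_div_iff₀ h1]
    nlinarith
  have h3 : (9 : ℝ) / 10 ≤ ((1 - z) / (1 - a)) ^ 2 := by nlinarith
  have h4 : (9 : ℝ) / 10 ≤ k1 a z := le_min h3 (by norm_num)
  linarith

theorem k3_low {a z : ℝ} (ha0 : 0 ≤ a) (ha : a ≤ 1 / 100) (hz : 1 - z ≤ 1 / 50) :
    1 - k3 a z ≤ 1 / 10 := by
  have h1 : 0 < 1 - a := by linarith
  have h2 : (97 : ℝ) / 100 ≤ max (z - a) 0 / (1 - a) := by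
    rw [le_div_iff₀ h1]
    have : z - a ≤ max (z - a) 0 := le_max_left _ _
    nlinarith
  have h3 : (9 : ℝ) / 10 ≤ k3 a z := by
    unfold k3
    nlinarith
  linarith

theorem pg_num {zz u Z I : ℝ} (h1 : I ≤ 2 / 5 * zz + 4 * u) (h2 : zz - 2 * u ≤ Z)
    (h3 : 5000 * u ≤ zz) (h0 : 0 ≤ u) : I ≤ 9 / 20 * Z := by
  linarith

/-- the four bounds against gadgets, on the good set -/
theorem pgood (hPG : S_PG) {g δ : ℝ} {L : ℕ} {φ ψ : ℕ → ℝ} {A B : Finset ℕ} (hg : 0 < g)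
    (hL : 100 ≤ L) (hg8 : g * (L : ℝ) ^ 8 ≤ 1) (hδ : 0 ≤ δ) (hA : Sub1 L A) (hB : Sub1 L B)
    (hM : 40 ≤ A.card + B.card)
    (hd : ∀ l, 1 ≤ l → l ≤ L → |φ l - g * l| ≤ δ ∧ |ψ l - (1 - g * l)| ≤ δ) {a : ℝ} (ha : 0 ≤ a)
    (ha1 : a ≤ 1 / 100) :
    (∫ z in (0 : ℝ)..1, clp (1 - k1 a z) * dens φ ψ A B (roleOf (.inl false : Gd A B)) z) ≤
      2 / 5 * ZZ g A B + 4 * (L * δ) ∧
    (∫ z in (0 : ℝ)..1, clp (1 - k3 a z) * dens φ ψ A B (roleOf (.inl true : Gd A B)) z) ≤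
      2 / 5 * ZZ g A B + 4 * (L * δ) ∧
    ∀ s : {l : ℕ // l ∈ A} ⊕ {l : ℕ // l ∈ B},
      (∫ z in (0 : ℝ)..1, clp (k1 a z) * dens φ ψ A B (roleOf (.inr s : Gd A B)) z) ≤
        2 / 5 * ZZ g A B + 4 * (L * δ) ∧
      (∫ z in (0 : ℝ)..1, clp (k3 a z) * dens φ ψ A B (roleOf (.inr s : Gd A B)) z) ≤
        2 / 5 * ZZ g A B + 4 * (L * δ) := by
  have hP := hPG g a L A B hg hL hg8 hA hB hM ha ha1
  have m1 : Measurable fun z : ℝ => k1 a z := m_k1 measurable_const measurable_id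
  have m3 : Measurable fun z : ℝ => k3 a z := m_k3 measurable_const measurable_id
  have i01 : ∀ (k k' h : ℝ → ℝ), (∀ z, 0 ≤ z → z ≤ 1 → k z = k' z) →
      (∫ z in (0 : ℝ)..1, k z * h z) = ∫ z in (0 : ℝ)..1, k' z * h z := by
    intro k k' h hk
    refine intervalIntegral.integral_congr fun z hz => ?_
    rw [Set.uIcc_of_le zero_le_one] at hz
    rw [hk z hz.1 hz.2]
  have b1 : ∀ z, 0 ≤ z → z ≤ 1 → clp (1 - k1 a z) = 1 - k1 a z := fun z _ _ =>
    clp_eq (by linarith [(k1_bd a z).2]) (by linarith [(k1_bd a z).1])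
  have b1' : ∀ z, 0 ≤ z → z ≤ 1 → clp (k1 a z) = k1 a z := fun z _ _ =>
    clp_eq (k1_bd a z).1 (k1_bd a z).2
  have b3 : ∀ z, 0 ≤ z → z ≤ 1 → clp (1 - k3 a z) = 1 - k3 a z := fun z _ h =>
    clp_eq (by linarith [k3_le (a := a) (by linarith) h]) (by linarith [k3_nn a z])
  have b3' : ∀ z, 0 ≤ z → z ≤ 1 → clp (k3 a z) = k3 a z := fun z _ h =>
    clp_eq (k3_nn a z) (k3_le (by linarith) h)
  refine ⟨?_, ?_, fun s => ⟨?_, ?_⟩⟩
  · refine (wdens hδ hL hA hB hd (.inl false) (k := fun z => clp (1 - k1 a z))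
      (clp_meas.comp (measurable_const.sub m1)) (fun z => clp_bd _)).trans ?_
    rw [i01 _ _ _ b1]
    have := hP.1
    exact add_le_add this le_rfl
  · refine (wdens hδ hL hA hB hd (.inl true) (k := fun z => clp (1 - k3 a z))
      (clp_meas.comp (measurable_const.sub m3)) (fun z => clp_bd _)).trans ?_
    rw [i01 _ _ _ b3]
    have := hP.2.1
    exact add_le_add this le_rfl
  · refine (wdens hδ hL hA hB hd (.inr s) (k := fun z => clp (k1 a z))
      (clp_meas.comp m1) (fun z => clp_bd _)).trans ?_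
    rw [i01 _ _ _ b1']
    have := (hP.2.2 s).1
    exact add_le_add this le_rfl
  · refine (wdens hδ hL hA hB hd (.inr s) (k := fun z => clp (k3 a z))
      (clp_meas.comp m3) (fun z => clp_bd _)).trans ?_
    rw [i01 _ _ _ b3']
    have := (hP.2.2 s).2
    exact add_le_add this le_rfl

/-- the lower layer -/
theorem layer_lo {φ : ℝ} (h0 : 0 ≤ φ) (h1 : φ ≤ 1) {h : ℝ → ℝ} (hh : PERT.Gd1 h) :
    (∫ z in (0 : ℝ)..1, (if z ≤ φ then (1 : ℝ) else 0) * h z) = ∫ z in (0 : ℝ)..φ, h z := by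
  have hm : Measurable fun z : ℝ => if z ≤ φ then (1 : ℝ) else 0 :=
    Measurable.ite measurableSet_Iic measurable_const measurable_const
  have hi : IntervalIntegrable (fun z => (if z ≤ φ then (1 : ℝ) else 0) * h z) volume 0 1 :=
    mul_ii hm (fun z => by split_ifs <;> simp) hh
  have i1 := hi.mono_set (a := 0) (b := 1) (c := 0) (d := φ) (by
    rw [Set.uIcc_of_le h0, Set.uIcc_of_le zero_le_one]; exact Set.Icc_subset_Icc le_rfl h1)
  have i2 := hi.mono_set (a := 0) (b := 1) (c := φ) (d := 1) (by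
    rw [Set.uIcc_of_le h1, Set.uIcc_of_le zero_le_one]; exact Set.Icc_subset_Icc h0 le_rfl)
  rw [← intervalIntegral.integral_add_adjacent_intervals i1 i2]
  have e1 : (∫ z in (0 : ℝ)..φ, (if z ≤ φ then (1 : ℝ) else 0) * h z) = ∫ z in (0 : ℝ)..φ, h z := by
    refine intervalIntegral.integral_congr_ae (Filter.Eventually.of_forall fun z hz => ?_)
    rw [Set.uIoc_of_le h0] at hz
    rw [if_pos hz.2, one_mul]
  have e2 : (∫ z in φ..1, (if z ≤ φ then (1 : ℝ) else 0) * h z) = 0 := by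
    refine (intervalIntegral.integral_congr_ae (g := fun _ => (0 : ℝ))
      (Filter.Eventually.of_forall fun z hz => ?_)).trans (by simp)
    rw [Set.uIoc_of_le h1] at hz
    rw [if_neg (not_le.2 hz.1), zero_mul]
  rw [e1, e2, add_zero]

/-- the upper layer -/
theorem layer_hi {ψ : ℝ} (h0 : 0 ≤ ψ) (h1 : ψ ≤ 1) {h : ℝ → ℝ} (hh : PERT.Gd1 h) :
    (∫ z in (0 : ℝ)..1, (if ψ < z then (1 : ℝ) else 0) * h z) = ∫ z in ψ..1, h z := by
  have hm : Measurable fun z : ℝ => if ψ < z then (1 : ℝ) else 0 :=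
    Measurable.ite measurableSet_Ioi measurable_const measurable_const
  have hi : IntervalIntegrable (fun z => (if ψ < z then (1 : ℝ) else 0) * h z) volume 0 1 :=
    mul_ii hm (fun z => by split_ifs <;> simp) hh
  have i1 := hi.mono_set (a := 0) (b := 1) (c := 0) (d := ψ) (by
    rw [Set.uIcc_of_le h0, Set.uIcc_of_le zero_le_one]; exact Set.Icc_subset_Icc le_rfl h1)
  have i2 := hi.mono_set (a := 0) (b := 1) (c := ψ) (d := 1) (by
    rw [Set.uIcc_of_le h1, Set.uIcc_of_le zero_le_one]; exact Set.Icc_subset_Icc h0 le_rfl)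
  rw [← intervalIntegral.integral_add_adjacent_intervals i1 i2]
  have e1 : (∫ z in (0 : ℝ)..ψ, (if ψ < z then (1 : ℝ) else 0) * h z) = 0 := by
    refine (intervalIntegral.integral_congr_ae (g := fun _ => (0 : ℝ))
      (Filter.Eventually.of_forall fun z hz => ?_)).trans (by simp)
    rw [Set.uIoc_of_le h0] at hz
    rw [if_neg (not_lt.2 hz.2), zero_mul]
  have e2 : (∫ z in ψ..1, (if ψ < z then (1 : ℝ) else 0) * h z) = ∫ z in ψ..1, h z := by
    refine intervalIntegral.integral_congr_ae (Filter.Eventually.of_forall fun z hz => ?_)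
    rw [Set.uIoc_of_le h1] at hz
    rw [if_pos hz.1, one_mul]
  rw [e1, e2, zero_add]

theorem min_small {x y η c ν : ℝ} (h : x ≤ c + 2 * ν) (hc : c + 2 * ν ≤ 1 / 2 - η / 8) :
    min x y ≤ 1 / 2 - η / 8 :=
  (min_le_left _ _).trans (by linarith)

theorem min_diff {x y η : ℝ} (h : x + y ≤ 1) (hd : η / 4 ≤ |x - y|) :
    min x y ≤ 1 / 2 - η / 8 := by
  rcases le_total x y with h1 | h1
  · rw [min_eq_left h1]
    rw [abs_of_nonpos (by linarith)] at hd
    linarith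
  · rw [min_eq_right h1]
    rw [abs_of_nonneg (by linarith)] at hd
    linarith

theorem num3 {η δ ν : ℝ} {L : ℕ} (h2000 : 2000 * ((L : ℝ) * δ) ≤ η) (hν : ν ≤ η / 2000)
    (hν0 : 0 ≤ ν) (hη : 0 < η) (hη4 : η ≤ 1 / 100) (hδ : 0 < δ) :
    η / 4 ≤ (η - 20 * L * δ) - ((η - 20 * L * δ) + 1) * (2 * ν) := by
  have h0 : 0 ≤ (L : ℝ) * δ := by positivity
  have h1 : 20 * (L : ℝ) * δ = 20 * (L * δ) := by ring
  rw [h1]
  have h2 : ((η - 20 * ((L : ℝ) * δ)) + 1) * (2 * ν) ≤ (5 / 4) * (2 * ν) :=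
    mul_le_mul_of_nonneg_right (by linarith) (by linarith)
  linarith

theorem glsmall {g : ℝ} {L : ℕ} (hg : 0 < g) (hL : 100 ≤ L) (hg8 : g * (L : ℝ) ^ 8 ≤ 1) :
    g * (L : ℝ) ^ 2 ≤ 1 / 10000 ∧ g * L ≤ 1 / 10000 ∧ g ≤ g * L := by
  have hL' : (100 : ℝ) ≤ L := by exact_mod_cast hL
  have h6 : (10000 : ℝ) ≤ (L : ℝ) ^ 6 := by
    calc (10000 : ℝ) ≤ 100 ^ 6 := by norm_num
      _ ≤ (L : ℝ) ^ 6 := pow_le_pow_left₀ (by norm_num) hL' 6
  have h1 : g * (L : ℝ) ^ 2 * 10000 ≤ g * (L : ℝ) ^ 2 * (L : ℝ) ^ 6 :=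
    mul_le_mul_of_nonneg_left h6 (by positivity)
  have h2 : g * (L : ℝ) ^ 2 * (L : ℝ) ^ 6 = g * (L : ℝ) ^ 8 := by ring
  have h3 : g ≤ g * L := le_mul_of_one_le_right hg.le (by linarith)
  have h4 : g * L ≤ g * L * L := le_mul_of_one_le_right (by positivity) (by linarith)
  have h5 : g * L * L = g * (L : ℝ) ^ 2 := by ring
  refine ⟨by linarith, by linarith, h3⟩

end Pool.Agent.H34.RK.B2
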