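import Pool.Agent.H34.RK.Stm4

/-!
# RK-BAL2: kernels of the extra pairs
-/

set_option autoImplicit false

open Finset MeasureTheory

namespace Pool.Agent.H34.RK.B2

theorem lin {p q s : ℝ} (hpq : p ≤ q) (hqs : q ≤ s) :
    ∫⁻ e in Set.Ioc p q, ENNReal.ofReal (s - e) = ENNReal.ofReal ((s - p) ^ 2 / 2 - (s - q) ^ 2 / 2) := by
  have hi : IntegrableOn (fun e : ℝ => s - e) (Set.Ioc p q) := by
    have : Continuous fun e : ℝ => s - e := by fun_prop
    exact (this.intervalIntegrable p q).1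
  rw [← ofReal_integral_eq_lintegral_ofReal hi ?_]
  · congr 1
    rw [← intervalIntegral.integral_of_le hpq, intervalIntegral.integral_sub (by simp) (by simp),
      intervalIntegral.integral_const, integral_id]
    simp only [smul_eq_mul]
    ring
  · refine (ae_restrict_iff' measurableSet_Ioc).2 (Filter.Eventually.of_forall fun e he => ?_)
    show 0 ≤ s - e
    linarith [he.2]

theorem split {a c : ℝ} (hac : a ≤ c) (F : ℝ → ENNReal) :
    ∫⁻ e in Set.Ioo a 1, F e ≤ (∫⁻ e in Set.Ioc a c, F e) + ∫⁻ e in Set.Ioo c 1, F e := by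
  refine le_trans ?_ (lintegral_union_le F (Set.Ioc a c) (Set.Ioo c 1))
  refine lintegral_mono_set fun e he => ?_
  rcases le_or_gt e c with h | h
  · exact Or.inl ⟨he.1, h⟩
  · exact Or.inr ⟨h, he.2⟩

theorem zr {s : Set ℝ} (hs : MeasurableSet s) {F : ℝ → ENNReal} (h : ∀ e ∈ s, F e = 0) :
    ∫⁻ e in s, F e = 0 := by
  rw [setLIntegral_congr_fun hs (g := fun _ => 0) h, lintegral_zero]

theorem Ioo_le {c s : ℝ} (F : ℝ → ENNReal) : ∫⁻ e in Set.Ioo c s, F e ≤ ∫⁻ e in Set.Ioc c s, F e :=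
  lintegral_mono_set Set.Ioo_subset_Ioc_self

theorem vol1 (e : ℝ) : ∫⁻ _d in Set.Ioo e 1, (1 : ENNReal) = ENNReal.ofReal (1 - e) := by
  rw [lintegral_const, one_mul, Measure.restrict_apply_univ, Real.volume_Ioo]

/-- total volume of a pair -/
theorem tot {a : ℝ} (ha : a ≤ 1) :
    ∫⁻ e in Set.Ioo a 1, ∫⁻ _d in Set.Ioo e 1, (1 : ENNReal) = ENNReal.ofReal ((1 - a) ^ 2 / 2) := by
  simp only [vol1]
  have h : ∫⁻ e in Set.Ioo a 1, ENNReal.ofReal (1 - e) = ∫⁻ e in Set.Ioc a 1, ENNReal.ofReal (1 - e) :=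
    setLIntegral_congr Ioo_ae_eq_Ioc
  rw [h, lin ha le_rfl]
  congr 1
  ring

/-- `P(e > z)` -/
noncomputable def k1 (a z : ℝ) : ℝ := min (((1 - z) / (1 - a)) ^ 2) 1
/-- `P(d < z)` -/
noncomputable def k3 (a z : ℝ) : ℝ := (max (z - a) 0 / (1 - a)) ^ 2

theorem k1_eq {a z : ℝ} (ha : a < 1) (hz : z ≤ 1) :
    (1 - a) ^ 2 / 2 * k1 a z = (1 - max a z) ^ 2 / 2 := by
  have h1 : 0 < 1 - a := by linarith
  unfold k1
  rw [div_pow]
  rcases le_total a z with h | h
  · rw [max_eq_right h, min_eq_left]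
    · field_simp
    · rw [div_le_one (by positivity)]
      nlinarith
  · rw [max_eq_left h, min_eq_right]
    · ring
    · rw [le_div_iff₀ (by positivity)]
      nlinarith

theorem k3_eq {a z : ℝ} (ha : a < 1) : (1 - a) ^ 2 / 2 * k3 a z = (max (z - a) 0) ^ 2 / 2 := by
  have h1 : 0 < 1 - a := by linarith
  unfold k3
  field_simp

/-- `z < e` -/
theorem K1 {a z : ℝ} (ha : a < 1) (hz : z ≤ 1) :
    ∫⁻ e in Set.Ioo a 1, ∫⁻ _d in Set.Ioo e 1, (if z < e then (1 : ENNReal) else 0) ≤
      ENNReal.ofReal ((1 - a) ^ 2 / 2 * k1 a z) := by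
  rw [k1_eq ha hz]
  refine (split (le_max_left a z) _).trans ?_
  have h1 : ∫⁻ e in Set.Ioc a (max a z), ∫⁻ _d in Set.Ioo e 1, (if z < e then (1 : ENNReal) else 0) =
      0 := by
    refine zr measurableSet_Ioc fun e he => ?_
    have : ¬ z < e := by
      rcases le_total a z with h | h
      · rw [max_eq_right h] at he
        exact not_lt.2 he.2
      · rw [max_eq_left h] at he
        exact absurd he.1 (not_lt.2 he.2)
    simp [this]
  rw [h1, zero_add]
  refine (Ioo_le _).trans ?_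
  calc _ ≤ ∫⁻ e in Set.Ioc (max a z) 1, ENNReal.ofReal (1 - e) := by
        refine lintegral_mono fun e => ?_
        rw [← vol1 e]
        refine lintegral_mono fun d => ?_
        split_ifs <;> simp
    _ = _ := by
        rw [lin (max_le ha.le hz) le_rfl]
        congr 1
        ring

/-- `e < z` -/
theorem K2 {a z : ℝ} (ha : a < 1) (hz : z ≤ 1) :
    ∫⁻ e in Set.Ioo a 1, ∫⁻ _d in Set.Ioo e 1, (if e < z then (1 : ENNReal) else 0) ≤
      ENNReal.ofReal ((1 - a) ^ 2 / 2 * (1 - k1 a z)) := by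
  rw [mul_sub, k1_eq ha hz, mul_one]
  refine (split (le_max_left a z) _).trans ?_
  have h1 : ∫⁻ e in Set.Ioo (max a z) 1, ∫⁻ _d in Set.Ioo e 1, (if e < z then (1 : ENNReal) else 0) =
      0 := by
    refine zr measurableSet_Ioo fun e he => ?_
    have : ¬ e < z := not_lt.2 ((le_max_right a z).trans he.1.le)
    simp [this]
  rw [h1, add_zero]
  calc _ ≤ ∫⁻ e in Set.Ioc a (max a z), ENNReal.ofReal (1 - e) := by
        refine lintegral_mono fun e => ?_
        rw [← vol1 e]
        refine lintegral_mono fun d => ?_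
        split_ifs <;> simp
    _ = _ := by rw [lin (le_max_left a z) (max_le ha.le hz)]

/-- `d < z` -/
theorem K3 {a z : ℝ} (ha : a < 1) (hz : z ≤ 1) :
    ∫⁻ e in Set.Ioo a 1, ∫⁻ d in Set.Ioo e 1, (if d < z then (1 : ENNReal) else 0) ≤
      ENNReal.ofReal ((1 - a) ^ 2 / 2 * k3 a z) := by
  rw [k3_eq ha]
  refine (split (le_max_left a z) _).trans ?_
  have h0 : ∀ e : ℝ, ∫⁻ d in Set.Ioo e 1, (if d < z then (1 : ENNReal) else 0) ≤
      ENNReal.ofReal (z - e) := by
    intro e
    have : (fun d : ℝ => if d < z then (1 : ENNReal) else 0) = (Set.Iio z).indicator 1 := by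
      funext d
      simp [Set.indicator]
    rw [this, lintegral_indicator_one measurableSet_Iio,
      Measure.restrict_apply measurableSet_Iio, ← Real.volume_Ioo]
    refine measure_mono fun d hd => ⟨hd.2.1, hd.1⟩
  have h1 : ∫⁻ e in Set.Ioo (max a z) 1, ∫⁻ d in Set.Ioo e 1, (if d < z then (1 : ENNReal) else 0) ≤
      0 := by
    refine le_of_eq (zr measurableSet_Ioo fun e he => ?_)
    refine le_antisymm ((h0 e).trans ?_) bot_le
    rw [ENNReal.ofReal_of_nonpos]
    linarith [he.1, le_max_right a z]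
  have h2 : ∫⁻ e in Set.Ioc a (max a z), ∫⁻ d in Set.Ioo e 1, (if d < z then (1 : ENNReal) else 0) ≤
      ENNReal.ofReal ((max (z - a) 0) ^ 2 / 2) := by
    rcases le_total a z with h | h
    · rw [max_eq_right h, max_eq_left (by linarith)]
      refine (lintegral_mono h0).trans ?_
      rw [lin h le_rfl]
      refine ENNReal.ofReal_le_ofReal ?_
      nlinarith
    · rw [max_eq_left h]
      simp
  calc _ ≤ _ := add_le_add h2 h1
    _ = _ := add_zero _

/-- `z < d` -/
theorem K4 {a z : ℝ} (ha : a < 1) (hz : z ≤ 1) :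
    ∫⁻ e in Set.Ioo a 1, ∫⁻ d in Set.Ioo e 1, (if z < d then (1 : ENNReal) else 0) ≤
      ENNReal.ofReal ((1 - a) ^ 2 / 2 * (1 - k3 a z)) := by
  rw [mul_sub, k3_eq ha, mul_one]
  refine (split (le_max_left a z) _).trans ?_
  have h0 : ∀ e : ℝ, ∫⁻ d in Set.Ioo e 1, (if z < d then (1 : ENNReal) else 0) ≤
      ENNReal.ofReal (1 - max e z) := by
    intro e
    have : (fun d : ℝ => if z < d then (1 : ENNReal) else 0) = (Set.Ioi z).indicator 1 := by
      funext d
      simp [Set.indicator]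
    rw [this, lintegral_indicator_one measurableSet_Ioi,
      Measure.restrict_apply measurableSet_Ioi, ← Real.volume_Ioo]
    refine measure_mono fun d hd => ⟨max_lt hd.2.1 hd.1, hd.2.2⟩
  have h1 : ∫⁻ e in Set.Ioo (max a z) 1, ∫⁻ d in Set.Ioo e 1, (if z < d then (1 : ENNReal) else 0) ≤
      ENNReal.ofReal ((1 - max a z) ^ 2 / 2) := by
    refine (Ioo_le _).trans ?_
    calc _ ≤ ∫⁻ e in Set.Ioc (max a z) 1, ENNReal.ofReal (1 - e) := by
          refine lintegral_mono fun e => (h0 e).trans ?_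
          exact ENNReal.ofReal_le_ofReal (by linarith [le_max_left e z])
      _ = _ := by
          rw [lin (max_le ha.le hz) le_rfl]
          congr 1
          ring
  have h2 : ∫⁻ e in Set.Ioc a (max a z), ∫⁻ d in Set.Ioo e 1, (if z < d then (1 : ENNReal) else 0) ≤
      ENNReal.ofReal ((1 - max a z) * (max a z - a)) := by
    calc _ ≤ ∫⁻ _e in Set.Ioc a (max a z), ENNReal.ofReal (1 - max a z) := by
          refine setLIntegral_mono' measurableSet_Ioc fun e he => (h0 e).trans ?_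
          refine ENNReal.ofReal_le_ofReal ?_
          rcases le_total a z with h | h
          · rw [max_eq_right h]
            linarith [le_max_right e z]
          · rw [max_eq_left h] at he
            exact absurd he.1 (not_lt.2 he.2)
      _ = _ := by
          rw [lintegral_const, Measure.restrict_apply_univ, Real.volume_Ioc,
            ← ENNReal.ofReal_mul (by linarith [max_le ha.le hz])]
  refine (add_le_add h2 h1).trans ?_
  have h3 : 0 ≤ 1 - max a z := by linarith [max_le ha.le hz]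
  have h4 : 0 ≤ max a z - a := by linarith [le_max_left a z]
  rw [← ENNReal.ofReal_add (by positivity) (by positivity)]
  refine ENNReal.ofReal_le_ofReal ?_
  rcases le_total a z with h | h
  · rw [max_eq_right h, max_eq_left (by linarith)]
    nlinarith
  · rw [max_eq_left h, max_eq_right (by linarith)]
    nlinarith

theorem k1_bd (a z : ℝ) : 0 ≤ k1 a z ∧ k1 a z ≤ 1 :=
  ⟨le_min (sq_nonneg _) zero_le_one, min_le_right _ _⟩

theorem k3_nn (a z : ℝ) : 0 ≤ k3 a z := sq_nonneg _

theorem k3_le {a z : ℝ} (ha : a < 1) (hz : z ≤ 1) : k3 a z ≤ 1 := by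
  unfold k3
  have h1 : 0 < 1 - a := by linarith
  have h2 : max (z - a) 0 / (1 - a) ≤ 1 := by
    rw [div_le_one h1]
    exact max_le (by linarith) h1.le
  have h3 : 0 ≤ max (z - a) 0 / (1 - a) := div_nonneg (le_max_right _ _) h1.le
  exact pow_le_one₀ h3 h2

/-- two pairs: an integrand at most `1` -/
theorem tot2 {a a' : ℝ} (ha : a ≤ 1) (ha' : a' ≤ 1) (F : ℝ → ℝ → ℝ → ℝ → ENNReal)
    (hF : ∀ e d e' d', F e d e' d' ≤ 1) :
    ∫⁻ e in Set.Ioo a 1, ∫⁻ d in Set.Ioo e 1, ∫⁻ e' in Set.Ioo a' 1, ∫⁻ d' in Set.Ioo e' 1,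
      F e d e' d' ≤ ENNReal.ofReal ((1 - a) ^ 2 / 2 * ((1 - a') ^ 2 / 2)) := by
  calc _ ≤ ∫⁻ e in Set.Ioo a 1, ∫⁻ _d in Set.Ioo e 1, ENNReal.ofReal ((1 - a') ^ 2 / 2) := by
        refine lintegral_mono fun e => lintegral_mono fun d => ?_
        rw [← tot ha']
        exact lintegral_mono fun e' => lintegral_mono fun d' => hF e d e' d'
    _ = (∫⁻ e in Set.Ioo a 1, ∫⁻ _d in Set.Ioo e 1, (1 : ENNReal)) *
          ENNReal.ofReal ((1 - a') ^ 2 / 2) := by
        rw [← lintegral_mul_const' _ _ ENNReal.ofReal_ne_top]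
        refine lintegral_congr fun e => ?_
        rw [← lintegral_mul_const' _ _ ENNReal.ofReal_ne_top]
        simp
    _ = _ := by
        rw [tot ha, ← ENNReal.ofReal_mul (by positivity)]

end Pool.Agent.H34.RK.B2
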