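import Pool.Agent.H34.RK.Stm4
import Pool.Agent.H34.RK.Balf

/-!
# RK-BAL2: weights of the extra pairs, general lemmas
-/

set_option autoImplicit false

open Finset MeasureTheory

namespace Pool.Agent.H34.RK.B2

open BALF

noncomputable def clp (x : ℝ) : ℝ := max 0 (min 1 x)

theorem clp_bd (x : ℝ) : 0 ≤ clp x ∧ clp x ≤ 1 :=
  ⟨le_max_left _ _, max_le zero_le_one (min_le_left _ _)⟩

theorem clp_eq {x : ℝ} (h0 : 0 ≤ x) (h1 : x ≤ 1) : clp x = x := by
  unfold clp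
  rw [min_eq_right h1, max_eq_right h0]

theorem clp_meas : Measurable clp := measurable_const.max (measurable_const.min measurable_id)

noncomputable def EE {L : ℕ} (r : ℕ) (θ : Fr L) : ℝ := ∏ j ∈ range r, clp (1 - phi θ (j + 1)) ^ 2

theorem EE_meas {L : ℕ} (r : ℕ) : Measurable (EE (L := L) r) := by
  unfold EE
  refine Finset.measurable_prod _ fun j _ => ?_
  exact (clp_meas.comp (measurable_const.sub (meas_phi _))).pow_const _

theorem EE_bd {L : ℕ} (r : ℕ) (θ : Fr L) : 0 ≤ EE r θ ∧ EE r θ ≤ 1 := by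
  unfold EE
  have h : ∀ j ∈ range r, 0 ≤ clp (1 - phi θ (j + 1)) ^ 2 ∧ clp (1 - phi θ (j + 1)) ^ 2 ≤ 1 :=
    fun j _ => ⟨sq_nonneg _, pow_le_one₀ (clp_bd _).1 (clp_bd _).2⟩
  exact ⟨prod_nonneg fun j hj => (h j hj).1, prod_le_one (fun j hj => (h j hj).1) fun j hj => (h j hj).2⟩

theorem EE_eq {L r : ℕ} {θ : Fr L} (hθ : θ ∈ OmS L) :
    ex (range r) θ = (1 / 2) ^ r * EE r θ := by
  unfold ex EE
  have : ∀ j ∈ range r, (1 - phi θ (j + 1)) ^ 2 / 2 = (1 / 2) * clp (1 - phi θ (j + 1)) ^ 2 := by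
    intro j _
    rw [clp_eq (by linarith [(phi_mem hθ (j + 1)).2]) (by linarith [(phi_mem hθ (j + 1)).1])]
    ring
  rw [prod_congr rfl this, prod_mul_distrib, prod_const, card_range]

theorem EE_low {L r : ℕ} {θ : Fr L} (hθ : θ ∈ OmS L) {ε : ℝ} (hε : 0 ≤ ε) (hε1 : ε ≤ 1 / 4)
    (h : ∀ j < r, phi θ (j + 1) ≤ ε) (hr : 2 * ε * r ≤ 1 / 10) : 9 / 10 ≤ EE r θ := by
  have h1 : (1 - 2 * ε) ^ r ≤ EE r θ := by
    unfold EE
    calc (1 - 2 * ε) ^ r = ∏ _j ∈ range r, (1 - 2 * ε) := by rw [prod_const, card_range]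
      _ ≤ _ := by
        refine prod_le_prod (fun j _ => by linarith) fun j hj => ?_
        have h2 := h j (mem_range.1 hj)
        have h3 := phi_mem hθ (j + 1)
        rw [clp_eq (by linarith) (by linarith)]
        nlinarith
  have h2 := one_add_mul_le_pow (a := -(2 * ε)) (by linarith) r
  have h3 : (1 + -(2 * ε)) = 1 - 2 * ε := by ring
  rw [h3] at h2
  nlinarith

theorem weights {X : Type} [MeasurableSpace X] {μ : Measure X} {O bad : Set X} {W E : X → ℝ} {ν : ℝ}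
    (hO : MeasurableSet O) (hbad : MeasurableSet bad) (hW : 0 < ∫ x in O, W x ∂μ)
    (hb : ∫ x in O ∩ bad, W x ∂μ ≤ ν * ∫ x in O, W x ∂μ) (hν0 : 0 ≤ ν) (hν : ν ≤ 1 / 100)
    (hEm : Measurable E) (hWm : Measurable W) (hW0 : ∀ x ∈ O, 0 ≤ W x)
    (hE : ∀ x, 0 ≤ E x ∧ E x ≤ 1) (hEg : ∀ x ∈ O, x ∉ bad → 9 / 10 ≤ E x) :
    0 < ∫ x in O, E x * W x ∂μ ∧
      ∫ x in O ∩ bad, E x * W x ∂μ ≤ (2 * ν) * ∫ x in O, E x * W x ∂μ := by
  have hWi : IntegrableOn W O μ := by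
    by_contra hcon
    rw [integral_undef hcon] at hW
    exact lt_irrefl _ hW
  have habs : ∀ x ∈ O, |E x * W x| ≤ W x := fun x hx => by
    rw [abs_mul, abs_of_nonneg (hE x).1, abs_of_nonneg (hW0 x hx)]
    exact mul_le_of_le_one_left (hW0 x hx) (hE x).2
  have h1 := ratio_lower (c := 9 / 10) (f := fun x => E x * W x) hO hbad hW hb (by norm_num)
    (hEm.mul hWm) habs (fun x hx hxb => mul_le_mul_of_nonneg_right (hEg x hx hxb) (hW0 x hx))
  have h2 : 1 / 2 * ∫ x in O, W x ∂μ ≤ ∫ x in O, E x * W x ∂μ := by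
    refine le_trans (mul_le_mul_of_nonneg_right ?_ hW.le) h1
    linarith
  have hEWi : IntegrableOn (fun x => E x * W x) O μ := by
    refine Integrable.mono' hWi (hEm.mul hWm).aestronglyMeasurable ?_
    filter_upwards [ae_restrict_mem hO] with x hx
    exact habs x hx
  refine ⟨by linarith, ?_⟩
  have h3 : ∫ x in O ∩ bad, E x * W x ∂μ ≤ ∫ x in O ∩ bad, W x ∂μ := by
    refine setIntegral_mono_on (hEWi.mono_set Set.inter_subset_left)
      (hWi.mono_set Set.inter_subset_left) (hO.inter hbad) fun x hx => ?_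
    exact (le_abs_self _).trans (habs x hx.1)
  nlinarith [mul_le_mul_of_nonneg_left h2 hν0]

end Pool.Agent.H34.RK.B2
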