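import Pool.Agent.H34.RK.Stm4
import Pool.Agent.H34.RK.Balf
import Pool.Agent.H34.RK.X
import Pool.Agent.H34.RK.Opvs
import Pool.Agent.H34.RK.Vd
import Pool.Agent.H34.RK.B2.Ker
import Pool.Agent.H34.RK.B2.Dlb
import Pool.Agent.H34.RK.B2.Wm

/-!
# RK-BAL2: transfer from the large polytope to the small one
-/

set_option autoImplicit false

open Finset MeasureTheory

namespace Pool.Agent.H34.RK.B2

open BALF

variable {L N r : ℕ} {us vs : ℕ → ℕ} {A B : ℕ → Finset ℕ}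

theorem m_VS2 : MeasurableSet (VS2 L N r us vs A B) := by
  rw [XA.VS2_eq]
  exact (XA.T2_mp L N r us vs A B).measurable XA.m_W2

/-- the restriction -/
abbrev rs (f : El2 L N r us vs A B → ℝ) : El L N us vs A B → ℝ := fun a => f (.inl a)

theorem vol_le {a b : El2 L N r us vs A B} {Φ : (El2 L N r us vs A B → ℝ) → ENNReal}
    (h : ∀ f ∈ VS2 L N r us vs A B, f a < f b → 1 ≤ Φ f) :
    volume {f ∈ VS2 L N r us vs A B | f a < f b} ≤ ∫⁻ f in VS2 L N r us vs A B, Φ f := by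
  have hm : MeasurableSet {f ∈ VS2 L N r us vs A B | f a < f b} :=
    m_VS2.inter (measurableSet_lt (measurable_pi_apply a) (measurable_pi_apply b))
  calc volume {f ∈ VS2 L N r us vs A B | f a < f b} =
        ∫⁻ _f in {f ∈ VS2 L N r us vs A B | f a < f b}, 1 := by rw [setLIntegral_one]
    _ ≤ ∫⁻ f in {f ∈ VS2 L N r us vs A B | f a < f b}, Φ f :=
        setLIntegral_mono' hm fun f hf => h f hf.1 hf.2
    _ ≤ _ := lintegral_mono_set fun f hf => hf.1

theorem ex_nn (S : Finset ℕ) (θ : Fr L) : 0 ≤ ex S θ := by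
  unfold ex
  exact prod_nonneg fun j _ => by positivity

/-- events which depend only on the restriction -/
theorem tr1 (hX : S_X) (hL : 1 ≤ L) (hr : r ≤ L) {a b : El2 L N r us vs A B}
    (F : (El L N us vs A B → ℝ) → ENNReal) (κ : (El L N us vs A B → ℝ) → ℝ) (hF : Measurable F)
    (h1 : ∀ f ∈ VS2 L N r us vs A B, f a < f b → 1 ≤ F (rs f))
    (h2 : ∀ h ∈ VS L N us vs A B, F h ≤ ENNReal.ofReal (κ h)) :
    volume {f ∈ VS2 L N r us vs A B | f a < f b} ≤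
      ∫⁻ h in VS L N us vs A B, ENNReal.ofReal (ex (range r) (frl h) * κ h) := by
  refine (vol_le (Φ := fun f => F (rs f)) h1).trans ?_
  rw [(hX L N r us vs A B hL hr).1 F hF]
  refine setLIntegral_mono' XA.m_VS fun h hh => ?_
  rw [ENNReal.ofReal_mul (ex_nn _ _)]
  exact mul_le_mul' le_rfl (h2 h hh)

/-- events which depend on the restriction and one pair -/
theorem tr2 (hX : S_X) (hL : 1 ≤ L) (hr : r ≤ L) {a b : El2 L N r us vs A B} (j : Fin r)
    (F : (El L N us vs A B → ℝ) × (ℝ × ℝ) → ENNReal) (κ : (El L N us vs A B → ℝ) → ℝ)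
    (hF : Measurable F)
    (h1 : ∀ f ∈ VS2 L N r us vs A B, f a < f b →
      1 ≤ F (rs f, (f (.inr (j, false)), f (.inr (j, true)))))
    (h2 : ∀ h ∈ VS L N us vs A B, ∫⁻ e in Set.Ioo (phi (frl h) (j + 1)) 1, ∫⁻ d in Set.Ioo e 1,
      F (h, (e, d)) ≤ ENNReal.ofReal ((1 - phi (frl h) (j + 1)) ^ 2 / 2 * κ h)) :
    volume {f ∈ VS2 L N r us vs A B | f a < f b} ≤
      ∫⁻ h in VS L N us vs A B, ENNReal.ofReal (ex (range r) (frl h) * κ h) := by
  refine (vol_le (Φ := fun f => F (rs f, (f (.inr (j, false)), f (.inr (j, true))))) h1).trans ?_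
  rw [(hX L N r us vs A B hL hr).2.1 j F hF]
  refine setLIntegral_mono' XA.m_VS fun h hh => ?_
  have h3 : ex (range r) (frl h) = ex ((range r).erase j) (frl h) *
      ((1 - phi (frl h) (j + 1)) ^ 2 / 2) := by
    unfold ex
    rw [← Finset.mul_prod_erase (range r) (fun j => (1 - phi (frl h) (j + 1)) ^ 2 / 2)
      (mem_range.2 j.2)]
    ring
  rw [h3, mul_assoc, ENNReal.ofReal_mul (ex_nn _ _)]
  exact mul_le_mul' le_rfl (h2 h hh)

/-- events which depend on two pairs -/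
theorem tr3 (hX : S_X) (hL : 1 ≤ L) (hr : r ≤ L) {a b : El2 L N r us vs A B} (i j : Fin r)
    (hij : i ≠ j) (F : (El L N us vs A B → ℝ) × ((ℝ × ℝ) × (ℝ × ℝ)) → ENNReal)
    (κ : (El L N us vs A B → ℝ) → ℝ) (hF : Measurable F)
    (h1 : ∀ f ∈ VS2 L N r us vs A B, f a < f b →
      1 ≤ F (rs f, ((f (.inr (i, false)), f (.inr (i, true))),
        (f (.inr (j, false)), f (.inr (j, true))))))
    (h2 : ∀ h ∈ VS L N us vs A B, ∫⁻ e in Set.Ioo (phi (frl h) (i + 1)) 1, ∫⁻ d in Set.Ioo e 1,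
      ∫⁻ e' in Set.Ioo (phi (frl h) (j + 1)) 1, ∫⁻ d' in Set.Ioo e' 1,
      F (h, ((e, d), (e', d'))) ≤ ENNReal.ofReal (κ h * ((1 - phi (frl h) (i + 1)) ^ 2 / 2 *
        ((1 - phi (frl h) (j + 1)) ^ 2 / 2)))) :
    volume {f ∈ VS2 L N r us vs A B | f a < f b} ≤
      ∫⁻ h in VS L N us vs A B, ENNReal.ofReal (ex (range r) (frl h) * κ h) := by
  refine (vol_le (Φ := fun f => F (rs f, ((f (.inr (i, false)), f (.inr (i, true))),
        (f (.inr (j, false)), f (.inr (j, true)))))) h1).trans ?_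
  rw [(hX L N r us vs A B hL hr).2.2 i j F hij hF]
  refine setLIntegral_mono' XA.m_VS fun h hh => ?_
  have h3 : ex (range r) (frl h) = ex (((range r).erase i).erase j) (frl h) *
      ((1 - phi (frl h) (i + 1)) ^ 2 / 2 * ((1 - phi (frl h) (j + 1)) ^ 2 / 2)) := by
    unfold ex
    have hne : (j : ℕ) ≠ i := fun h => hij (Fin.ext h.symm)
    rw [← Finset.mul_prod_erase (range r) (fun j => (1 - phi (frl h) (j + 1)) ^ 2 / 2)
      (mem_range.2 i.2), ← Finset.mul_prod_erase ((range r).erase i)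
      (fun j => (1 - phi (frl h) (j + 1)) ^ 2 / 2) (mem_erase.2 ⟨hne, mem_range.2 j.2⟩)]
    ring
  rw [h3, mul_assoc, ENNReal.ofReal_mul (ex_nn _ _), mul_comm _ (κ h)]
  exact mul_le_mul' le_rfl (h2 h hh)

theorem vol_VS_le : volume (VS L N us vs A B) ≤ 1 := by
  rw [← VdAux.cube1 (ι := El L N us vs A B)]
  exact measure_mono fun f hf a => vs_bd hf a

/-- mass of a weighted density -/
theorem wmass (hMASS : S_MASS) {θ : Fr L} (hθ : θ ∈ OmS L) (A B : Finset ℕ) (e : Gd A B)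
    {k : ℝ → ℝ} (hk : Measurable k) (hk1 : ∀ z, 0 ≤ k z ∧ k z ≤ 1) :
    0 ≤ (∫ z in (0 : ℝ)..1, k z * dens (phi θ) (psi θ) A B (roleOf e) z) ∧
    (∫ z in (0 : ℝ)..1, k z * dens (phi θ) (psi θ) A B (roleOf e) z) ≤ ZT (phi θ) (psi θ) A B := by
  have h1 := hMASS (phi θ) (psi θ) A B e (phi_mem hθ) (psi_mem hθ)
  have hka : ∀ z, |k z| ≤ 1 := fun z => by rw [abs_of_nonneg (hk1 z).1]; exact (hk1 z).2
  refine ⟨intervalIntegral.integral_nonneg zero_le_one fun z hz =>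
    mul_nonneg (hk1 z).1 (h1.2.1 z hz.1 hz.2).1, ?_⟩
  rw [← h1.1]
  refine intervalIntegral.integral_mono_on zero_le_one
    (mul_ii hk hka (PERT.dens_gd _ _ _ _ _)) h1.2.2.1 fun z hz => ?_
  exact mul_le_of_le_one_left (h1.2.1 z hz.1 hz.2).1 (hk1 z).2

/-- upper bound for a volume -/
theorem up (hVDE : S_VDE) (hMASS : S_MASS) (hL : 1 ≤ L)
    (hsub : ∀ t < N, Sub1 L (A t) ∧ Sub1 L (B t)) {bad : Set (Fr L)} {ν : ℝ}
    (hbad : MeasurableSet bad)
    (hIE : 0 < ∫ θ in OmS L, EE r θ * (wt us vs θ * ∏ k : Fin N, ZT (phi θ) (psi θ) (A k) (B k)))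
    (hbE : ∫ θ in OmS L ∩ bad, EE r θ * (wt us vs θ * ∏ k : Fin N, ZT (phi θ) (psi θ) (A k) (B k)) ≤
      ν * ∫ θ in OmS L, EE r θ * (wt us vs θ * ∏ k : Fin N, ZT (phi θ) (psi θ) (A k) (B k)))
    (t : Fin N) (e : Gd (A t) (B t)) (K : Fr L × ℝ → ℝ) (c : ℝ) (V0 : ENNReal)
    (hKm : Measurable K) (hK1 : ∀ x, 0 ≤ K x ∧ K x ≤ 1) (hc : 0 ≤ c)
    (hgd : ∀ θ ∈ OmS L, θ ∉ bad →
      (∫ z in (0 : ℝ)..1, K (θ, z) * dens (phi θ) (psi θ) (A t) (B t) (roleOf e) z) ≤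
        c * ZT (phi θ) (psi θ) (A t) (B t))
    (hV0 : V0 ≤ ∫⁻ h in VS L N us vs A B,
      ENNReal.ofReal (ex (range r) (frl h) * K (frl h, h (.inr (.inr ⟨t, e⟩))))) :
    V0.toReal ≤ (c + ν) * ((1 / 2) ^ r *
      ∫ θ in OmS L, EE r θ * (wt us vs θ * ∏ k : Fin N, ZT (phi θ) (psi θ) (A k) (B k))) := by
  have hc0 : (0 : ℝ) < (1 / 2) ^ r := by positivity
  have hG := (hVDE L N us vs A B (EE r) hL hsub (EE_meas r) (EE_bd r)).2.2.2 t e
    (fun x => EE r x.1 * K x) (((EE_meas r).comp measurable_fst).mul hKm)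
    (fun x => ⟨mul_nonneg (EE_bd r x.1).1 (hK1 x).1,
      mul_le_one₀ (EE_bd r x.1).2 (hK1 x).1 (hK1 x).2⟩)
  have h1 : ∫⁻ h in VS L N us vs A B,
      ENNReal.ofReal (ex (range r) (frl h) * K (frl h, h (.inr (.inr ⟨t, e⟩)))) =
      ENNReal.ofReal ((1 / 2) ^ r) * ∫⁻ h in VS L N us vs A B,
        ENNReal.ofReal (EE r (frl h) * K (frl h, h (.inr (.inr ⟨t, e⟩)))) := by
    rw [← lintegral_const_mul' _ _ ENNReal.ofReal_ne_top]
    refine setLIntegral_congr_fun XA.m_VS fun h hh => ?_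
    rw [← ENNReal.ofReal_mul hc0.le, EE_eq (show frl h ∈ OmS L from hh.1), mul_assoc]
  have hfin : ∫⁻ h in VS L N us vs A B,
      ENNReal.ofReal (EE r (frl h) * K (frl h, h (.inr (.inr ⟨t, e⟩)))) ≠ ⊤ := by
    refine ne_top_of_le_ne_top (b := 1) ENNReal.one_ne_top ?_
    calc _ ≤ ∫⁻ _h in VS L N us vs A B, 1 := by
          refine lintegral_mono fun h => ENNReal.ofReal_le_one.2 ?_
          exact mul_le_one₀ (EE_bd r _).2 (hK1 _).1 (hK1 _).2
      _ = volume (VS L N us vs A B) := setLIntegral_one _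
      _ ≤ 1 := vol_VS_le
  have h2 : V0.toReal ≤ (1 / 2) ^ r * (∫⁻ h in VS L N us vs A B,
      ENNReal.ofReal (EE r (frl h) * K (frl h, h (.inr (.inr ⟨t, e⟩))))).toReal := by
    rw [h1] at hV0
    have := ENNReal.toReal_mono (ENNReal.mul_ne_top ENNReal.ofReal_ne_top hfin) hV0
    rwa [ENNReal.toReal_mul, ENNReal.toReal_ofReal hc0.le] at this
  have hZ : ∀ θ ∈ OmS L, ∀ k : Fin N, 0 ≤ ZT (phi θ) (psi θ) (A k) (B k) := fun θ hθ k =>
    (hMASS (phi θ) (psi θ) (A k) (B k) (.inl false) (phi_mem hθ) (psi_mem hθ)).2.2.2.1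
  have hK0 : ∀ θ ∈ OmS L, 0 ≤ wt us vs θ * ∏ k ∈ univ.erase t, ZT (phi θ) (psi θ) (A k) (B k) :=
    fun θ hθ => mul_nonneg (wt_nonneg hθ _ _) (prod_nonneg fun k _ => hZ θ hθ k)
  have hWe : ∀ (θ : Fr L), wt us vs θ * ∏ k : Fin N, ZT (phi θ) (psi θ) (A k) (B k) =
      (wt us vs θ * ∏ k ∈ univ.erase t, ZT (phi θ) (psi θ) (A k) (B k)) *
        ZT (phi θ) (psi θ) (A t) (B t) := by
    intro θ
    rw [← Finset.mul_prod_erase univ (fun k : Fin N => ZT (phi θ) (psi θ) (A k) (B k))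
        (mem_univ t)]
    ring
  have hin : ∀ θ : Fr L, (∫ z in (0 : ℝ)..1, (EE r θ * K (θ, z)) *
      dens (phi θ) (psi θ) (A t) (B t) (roleOf e) z) = EE r θ *
      ∫ z in (0 : ℝ)..1, K (θ, z) * dens (phi θ) (psi θ) (A t) (B t) (roleOf e) z := by
    intro θ
    rw [← intervalIntegral.integral_const_mul]
    simp only [mul_assoc]
  have hwm := fun θ (hθ : θ ∈ OmS L) => wmass hMASS hθ (A t) (B t) e
    (k := fun z => K (θ, z)) (hKm.comp measurable_prodMk_left) (fun z => hK1 (θ, z))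
  have h3 := ratio_upper (μ := volume) (f := fun θ : Fr L =>
      wt us vs θ * (∏ k ∈ univ.erase t, ZT (phi θ) (psi θ) (A k) (B k)) *
        ∫ z in (0 : ℝ)..1, (EE r θ * K (θ, z)) * dens (phi θ) (psi θ) (A t) (B t) (roleOf e) z)
      (c := c) (meas_OmS L) hbad hIE hbE hc (by
        intro θ hθ
        have hE := EE_bd r θ
        have h4 := hwm θ hθ
        simp only [hin]
        refine ⟨mul_nonneg (hK0 θ hθ) (mul_nonneg hE.1 h4.1), ?_⟩
        rw [hWe θ]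
        have h5 := mul_le_mul_of_nonneg_left (mul_le_mul_of_nonneg_left h4.2 hE.1) (hK0 θ hθ)
        linarith) (by
        intro θ hθ hb
        have hE := EE_bd r θ
        simp only [hin]
        rw [hWe θ]
        have h5 := mul_le_mul_of_nonneg_left (mul_le_mul_of_nonneg_left (hgd θ hθ hb) hE.1)
          (hK0 θ hθ)
        linarith)
  rw [hG] at h2
  refine h2.trans ((mul_le_mul_of_nonneg_left h3 hc0.le).trans (le_of_eq ?_))
  ring

end Pool.Agent.H34.RK.B2
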